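import Pool.Agent.T6.H11.EC.Final

/-!
# Edge cover polynomials of graphs with minimum degree two have at least three distinct roots

MP_2a9600_co, Q1: for every connected graph `G` with `δ(G) = 2` and `G ≠ K_3` the edge cover
polynomial has at least three distinct complex roots. This is proved (the answer is yes).

Outline (`m` edges, `n₂` vertices of degree two, `n₃` of degree three, `d` edges joining two
vertices of degree two). Suppose there are at most two roots. By the bound `≥ δ(G)` for the number of roots of
`Pool.Agent.Results.MP_a87573_co.DistinctRoots` there are exactly two, `0` and `-b`, so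
`E(G, x) = x^ρ (x + b)^c`.

1. Inclusion–exclusion gives the leading coefficients `1, 0, -n₂, d - n₃` of `E(G, x)` in powers of
   `1 + x` (`Pool.Agent.T6.H11.EC.Poly`). Hence `c b = m`, `m (b - 1) = 2 n₂` and
   `3 (d - n₃) = m (b - 1) (b - 2)`; the number `(1 + b)^c` of edge covers is an integer, so `b` is an
   integer, and `b = 2` or `b = 3`.
2. A connected graph with all degrees at least two has an edge cover with at most half of its edges
   (Euler tours, alternating colours), up to one additional edge for odd cycles
   (`Pool.Agent.T6.H11.EC.Half`). This excludes `b = 3`. So `b = 2`, `m = 2 T`, `ρ = c = n₂ = T`,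
   `d = n₃`; all edge covers have at least `T` edges and there are `3^T` edge covers.
3. If `e` joins two vertices of degree at least three, then by 2. for the components of `G - e` one
   of its ends has degree three and lies on an odd cycle whose other vertices have degree two
   (`Pool.Agent.T6.H11.EC.Struct`). Since the number of these edges is `d`, all these cycles are
   triangles and contain all edges which join vertices of degree two
   (`Pool.Agent.T6.H11.EC.Tri`).
4. So the edges of `G` are split into pairs (the edges at a vertex of degree two) and quadruples
   (a triangle with its third edge), and there are at most `3^T` sets of edges which cover the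
   vertices of degree two and the triangles; one of them does not cover `G`
   (`Pool.Agent.T6.H11.EC.Count`).
-/

set_option autoImplicit false

namespace Pool.Agent.Results.MP_2a9600_co.ThreeRoots

open Finset Polynomial
open Pool.Agent.Results.MP_a87573_co.DistinctRoots (edgeCoverPoly)

/-- Every connected graph with minimum degree two which is not the triangle has an edge cover
polynomial with at least three distinct complex roots. -/
theorem result : ∀ (V : Type) [Fintype V] [DecidableEq V] (G : SimpleGraph V) [DecidableRel G.Adj],
    G.Connected → G.minDegree = 2 → IsEmpty (G ≃g (⊤ : SimpleGraph (Fin 3))) →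
    3 ≤ Set.encard {z : ℂ | (edgeCoverPoly G).eval z = 0} := by
  intro V _ _ G _ hconn hmd hiso
  have hne := hconn.nonempty
  obtain ⟨x0, hx0⟩ := G.exists_minimal_degree_vertex
  rcases Nat.lt_or_ge (Fintype.card V) 4 with h | h
  · exfalso
    have hdeg : ∀ x, 2 ≤ G.degree x := fun x => hmd ▸ G.minDegree_le_degree x
    have hlt := G.degree_lt_card_verts x0
    have hcard : Fintype.card V = 3 := by omega
    have hadj : ∀ x y, x ≠ y → G.Adj x y := by
      intro x y hxy
      have h1 : G.neighborFinset x = univ.erase x := by
        apply Finset.eq_of_subset_of_card_le
        · intro z hz
          rw [SimpleGraph.mem_neighborFinset] at hz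
          exact Finset.mem_erase.2 ⟨hz.ne.symm, Finset.mem_univ _⟩
        · rw [Finset.card_erase_of_mem (Finset.mem_univ _), Finset.card_univ, hcard,
            SimpleGraph.card_neighborFinset_eq_degree]
          exact hdeg x
      have h2 : y ∈ G.neighborFinset x := by
        rw [h1]
        exact Finset.mem_erase.2 ⟨hxy.symm, Finset.mem_univ _⟩
      rwa [SimpleGraph.mem_neighborFinset] at h2
    obtain ⟨f⟩ := Fintype.card_eq.1 (hcard.trans (Fintype.card_fin 3).symm)
    refine hiso.elim' ⟨f, ?_⟩
    intro x y
    rw [SimpleGraph.top_adj]
    constructor
    · intro hxy
      exact hadj x y (fun h => hxy (by rw [h]))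
    · intro hxy heq
      exact hxy.ne (f.injective heq)
  · exact Pool.Agent.T6.H11.EC.main hconn (by omega) ⟨x0, by omega⟩ h

end Pool.Agent.Results.MP_2a9600_co.ThreeRoots
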